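import Pool.Agent.R629.NF.AlgInd
import Pool.Agent.R629.NF.Conc7

/-!
# MP_b583a4_nt: counterexamples to the two-dimensional Fontaine-Mazur conjecture are algebraically
independent on the edge

`G = Gal(Ω/ℚ)` is the absolute Galois group of `ℚ`, `Frob_p` an arbitrary Frobenius element at `p`,
`(U_j)` a countable family of two-dimensional representations (all `V_f ⊗ χ`, `f` a cuspidal eigenform and `χ` a geometric character, with Frobenius eigenvalues of
absolute value at most `p^w`) and `(V_i)` a countable family of pairwise non-isomorphic irreducible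
two-dimensional representations with the same bound.  Then `V_i` is isomorphic to one of the `U_j` if
and only if almost all values `l_i(t)` of `L(V_i, s)` on the line `Re s = 1 + w` are algebraic over a
field `K(t)` generated by countably many constants, the values of all `L(U_j, s)` at the same point,
`t` and the `p^{-it}`; and the values `l_i(t)` of those `V_i` which are not isomorphic to any `U_j` are
algebraically independent over `K(t)`, for all countable fields of constants and almost all `t`.  So
the number of the counterexamples among the `V_i` is a transcendence degree.  Chebotarev's theorem is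
not assumed: it is proved in the starting files and extended to `Gal(Ω/ℚ)` in the files imported here.
-/

set_option autoImplicit false

namespace Pool.Agent.Results.MP_b583a4_nt.IndependenceOfCounterexamples

open MeasureTheory
open Pool.Agent.R629.NF
open Pool.Agent.R629.SP

/-- A `V_i` which is not isomorphic to any `U_j` is not isomorphic to any of the `U_j` and the other
`V_i'` with the property `Q`. -/
lemma others {k : Type} [Field k] {G : Type} [Group G] {n : ℕ} {J I : Type}
    {U : J → G →* GL (Fin n) k} {V : I → G →* GL (Fin n) k} {Q : I → Prop} {i : {i // Q i}}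
    (hne : ∀ i i', i ≠ i' → IsEmpty ((rep (V i)).Equiv (rep (V i'))))
    (hi : ¬ ∃ j, Nonempty ((rep (V i)).Equiv (rep (U j)))) :
    ¬ ∃ j : J ⊕ {i' : {i // Q i} // i' ≠ i}, Nonempty ((rep (V i)).Equiv
      (rep (Sum.elim U (fun i' : {i' : {i // Q i} // i' ≠ i} => V i'.1) j))) := by
  rintro ⟨j | i', h⟩
  · exact hi ⟨j, h⟩
  · obtain ⟨E⟩ := h
    exact (hne i.1 i'.1.1 fun h => i'.2 (Subtype.ext h.symm)).false E

/-- **Algebraic independence of the counterexamples.** -/
theorem result {k : Type} [Field k] [CharZero k] [TopologicalSpace k] [IsTopologicalRing k]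
    [T1Space k] (ι : k →+* ℂ) {Ω : Type} [Field Ω] [CharZero Ω] [IsAlgClosure ℚ Ω]
    {Frob : Nat.Primes → Gal(Ω/ℚ)} (hF : ∀ p, IsFrobQ Ω p (Frob p))
    {J : Type} [Countable J] {U : J → Gal(Ω/ℚ) →* GL (Fin 2) k} (hU : ∀ j, IsCont (U j))
    {I : Type} [Countable I] {V : I → Gal(Ω/ℚ) →* GL (Fin 2) k} (hV : ∀ i, IsCont (V i))
    (hirr : ∀ i, (rep (V i)).IsIrreducible)
    (hne : ∀ i i', i ≠ i' → IsEmpty ((rep (V i)).Equiv (rep (V i'))))
    {w : ℝ} {SU : J → Finset ℕ} {SV : I → Finset ℕ}
    (hbU : ∀ j, Bd (SU j) (frobMat ι Frob (U j)) w)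
    (hbV : ∀ i, Bd (SV i) (frobMat ι Frob (V i)) w)
    {lU : J → ℝ → ℂ} (hlU : ∀ j, IsBoundary (SU j) (frobMat ι Frob (U j)) w (lU j))
    {lV : I → ℝ → ℂ} (hlV : ∀ i, IsBoundary (SV i) (frobMat ι Frob (V i)) w (lV i)) :
    (∀ i, (∃ j, Nonempty ((rep (V i)).Equiv (rep (U j)))) ↔ DependentOn (lV i) lU) ∧
      ∀ k' : Subfield ℂ, (k' : Set ℂ).Countable → ∀ᵐ t : ℝ,
        AlgebraicIndependent (IntermediateField.adjoin k' (valSet (fun j => lU j t) t))
          fun i : {i // ¬ ∃ j, Nonempty ((rep (V i)).Equiv (rep (U j)))} => lV i.1 t := by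
  have hC : Chebotarev ∅ Frob := cheb_rat hF
  -- a subquotient of the same dimension is isomorphic
  have key : ∀ {X : Type} (W : X → Gal(Ω/ℚ) →* GL (Fin 2) k) (i : I),
      (∃ x, IsSubquotient (rep (V i)) (rep (W x))) →
        ∃ x, Nonempty ((rep (V i)).Equiv (rep (W x))) := by
    rintro X W i ⟨x, hx⟩
    obtain ⟨E⟩ := equiv_of_subquotient hx le_rfl
    exact ⟨x, ⟨E.symm⟩⟩
  refine ⟨fun i => ?_, fun k' hk' => ?_⟩
  · obtain ⟨h1, h2, -⟩ := main_geoQ ι hC (hV i) (hirr i) hU (hbV i) hbU (hlV i) hlU
    exact ⟨h2, fun h => key U i (h1 h)⟩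
  · refine algInd_of_indep (l := fun i : {i // ¬ ∃ j, Nonempty ((rep (V i)).Equiv (rep (U j)))} =>
      lV i.1) (lU := lU) (fun i => ?_) k' hk'
    obtain ⟨h1, -, h3⟩ := main_geoQ ι hC (hV i.1) (hirr i.1)
      (J := J ⊕ {i' : {i // ¬ ∃ j, Nonempty ((rep (V i)).Equiv (rep (U j)))} // i' ≠ i})
      (m := fun _ => 2)
      (H := Sum.elim U fun i' => V i'.1)
      (SJ := Sum.elim SU fun i' => SV i'.1)
      (lH := Sum.elim lU fun i' => lV i'.1)
      (by rintro (j | i'); exacts [hU j, hV i'.1]) (hbV i.1)
      (by rintro (j | i'); exacts [hbU j, hbV i'.1]) (hlV i.1)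
      (by rintro (j | i'); exacts [hlU j, hlV i'.1])
    rcases h3 with h3 | h3
    · exact absurd (key _ i.1 (h1 h3)) (others hne i.2)
    · exact h3

end Pool.Agent.Results.MP_b583a4_nt.IndependenceOfCounterexamples
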