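import Pool.Agent.R401.Pf

/-!
# Congruences with an eigenform at a positive proportion of the primes

Let `V` be a two-dimensional `p`-adic representation of `Gal(ℚ̄/ℚ)` as in the conjecture of Fontaine
and Mazur, and let `V_f` be the representation of a cuspidal eigenform `f` of weight `k`; put
`w = k - 1`. If the Hodge-Tate weights of `V` are different then `V` stays irreducible on all open
subgroups, unless it is induced from a quadratic field (a case which is settled by class field
theory). Suppose that for the primes `l` in *some* set `P` of positive upper density the trace of the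
Frobenius element at `l` on `V` is congruent to `ζ_l a_l(f)` modulo `l ^ (w / 2)`, where the `ζ_l`
belong to a finite set (for example, they are roots of unity of bounded order): the number
`(tr_l(V) - ζ_l a_l(f)) ^ 2 / l ^ w` is an algebraic integer, up to a fixed denominator, and its
conjugates are bounded in the mean. Then `V` is isomorphic to `V_f ⊗ χ` where `χ` is a character of
finite order.

Equality of the traces is not needed (for equal traces this is Rajan's theorem), the set `P` may be
as sparse as one wants, as long as its upper density is positive, and no condition on the reduction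
of `V` and on its restriction to the decomposition group at `p` is used. Up to a factor which is
bounded by the size of the traces the modulus `l ^ (w / 2)` is the best possible one.

The theorem is proved for strongly absolutely irreducible representations of any dimension `n ≥ 2`
over any number field.

Proof. Up to a unit the squares of the numbers `c_l = (tr_l(V) - ζ_l a_l(f)) / l ^ (w / 2)` are
algebraic integers over a fixed denominator, whose conjugates are bounded in the mean; so they take
finitely many values on a subset of `P` of positive upper density. By Chebotarev's theorem for closed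
sets the elements `g` of the group with `tr V(w/2)(g) - ζ tr V_f(w/2)(g) = c` form a closed set of
positive Haar measure, for suitable `ζ` and `c`. Such a set contains a coset of an open subgroup:
among the spaces of matrix coefficients (and constants) whose common zero set has positive measure
and which contain the given function choose one of largest dimension; the common zero set of the
space and of its translate by an element near the identity still has positive measure, hence the
space is stable under an open subgroup. A linear relation on a coset between the trace of `V`, the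
trace of `V_f` and a constant is impossible unless `V` and `V_f` are isomorphic on an open normal
subgroup. By Schur's lemma they differ by a character of finite order.
-/

set_option autoImplicit false

namespace Pool.Agent.Results.MP_b583a4_nt.PositiveDensityTwist

open NumberField IsDedekindDomain Filter Matrix

/-- the absolute Galois group of the field `K`, with the Krull topology -/
abbrev AbsGal (K : Type) [Field K] : Type := Gal(AlgebraicClosure K/K)

/-- `g` is an (arithmetic) Frobenius element at a maximal ideal `Q` of the ring of all algebraic
integers which lies above the finite place `v` of `K`. -/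
def IsFrobenius {K : Type} [Field K] [NumberField K] (v : HeightOneSpectrum (𝓞 K))
    (g : AbsGal K) : Prop :=
  ∃ Q : Ideal (𝓞 (AlgebraicClosure K)), Q.IsMaximal ∧
    Q.comap (algebraMap (𝓞 K) (𝓞 (AlgebraicClosure K))) = v.asIdeal ∧
    ∀ x : 𝓞 (AlgebraicClosure K), g • x - x ^ Ideal.absNorm v.asIdeal ∈ Q

section
variable {K F : Type} [Field K] [Field F] {n : ℕ}

/-- the matrix of `g` -/
noncomputable def mat (V : AbsGal K →* GL (Fin n) F) (g : AbsGal K) : Matrix (Fin n) (Fin n) F :=
  (V g : GL (Fin n) F)

/-- The restriction of `V` to every open subgroup of the absolute Galois group is absolutely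
irreducible: the matrices of the elements of the subgroup span the space of all matrices. -/
def StronglyIrreducible (V : AbsGal K →* GL (Fin n) F) : Prop :=
  ∀ H : Subgroup (AbsGal K), IsOpen (H : Set (AbsGal K)) →
    Submodule.span F {X | ∃ h ∈ H, X = mat V h} = ⊤

end

/-- **Congruences at a positive proportion of the places.** -/
theorem result {K : Type} [Field K] [NumberField K] (p : ℕ) [Fact p.Prime] {F : Type}
    [NormedField F] [NormedAlgebra ℚ_[p] F] {n : ℕ} (hn : 2 ≤ n)
    (V : AbsGal K →* GL (Fin n) F) (hV : Continuous V) (hirr : StronglyIrreducible V)
    (W : AbsGal K →* GL (Fin n) F) (hW : Continuous W)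
    -- the field of coefficients, the set of places, the multipliers, and the differences
    {E : Type} [Field E] [NumberField E] (τ : E →+* F)
    (P : Set (HeightOneSpectrum (𝓞 K))) (Z : Finset E) (ζ a : HeightOneSpectrum (𝓞 K) → E)
    (hζ : ∀ v ∈ P, ζ v ∈ Z)
    (htr : ∀ v ∈ P, ∀ g, IsFrobenius v g →
      (mat V g⁻¹).trace - τ (ζ v) * (mat W g⁻¹).trace = τ (a v))
    -- they are divisible, up to a bounded denominator
    (w : ℤ) {d : ℕ} (hd : 0 < d) (b : HeightOneSpectrum (𝓞 K) → 𝓞 E)
    (hdiv : ∀ v ∈ P, (d : E) * a v ^ 2 = (Ideal.absNorm v.asIdeal : E) ^ w * b v)
    -- the upper density of `P` is positive, and the mean of the conjugates is bounded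
    {δ : ℝ} (hδ : 0 < δ) (C : ℝ)
    (hP : ∃ᶠ x : ℕ in atTop,
      δ * Nat.primeCounting x ≤
        ({v : HeightOneSpectrum (𝓞 K) | Ideal.absNorm v.asIdeal ≤ x ∧ v ∈ P}.ncard : ℝ) ∧
      ∑ᶠ v ∈ {v : HeightOneSpectrum (𝓞 K) | Ideal.absNorm v.asIdeal ≤ x ∧ v ∈ P},
        ∑ σ : E →+* ℂ, ‖σ (b v)‖ ≤ C * Nat.primeCounting x) :
    ∃ χ : AbsGal K →* Fˣ, IsOpen (χ.ker : Set (AbsGal K)) ∧ ∃ M : GL (Fin n) F, ∀ g,
      mat V g = (χ g : F) • ((M : Matrix (Fin n) (Fin n) F) * mat W g *
        ((M⁻¹ : GL (Fin n) F) : Matrix (Fin n) (Fin n) F)) := by
  exact Pool.Agent.R401.Pf.isTwist p V hV W hW hirr hn τ w P Z ζ a b hd hζ htr hdiv hδ C (by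
      refine (hP.and_eventually (Nat.tendsto_primeCounting.eventually_gt_atTop 0)).mono ?_
      rintro N ⟨⟨h1, h2⟩, h3⟩
      have h4 : (0 : ℝ) < (Nat.primeCounting N : ℝ) := by exact_mod_cast h3
      refine ⟨?_, h2⟩
      unfold Pool.Agent.W401.Cheb.dens
      rw [le_div_iff₀ h4]
      exact h1)

end Pool.Agent.Results.MP_b583a4_nt.PositiveDensityTwist
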