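import Mathlib
import Pool.Agent.R384.Z.Abs

/-!
# The two-dimensional Fontaine–Mazur conjecture over `ℚ` for `p = 2` and potentially reducible
# restriction to the decomposition group

Let `E` be a finite extension of `ℚ_2` (or the fraction field of a Noetherian local domain with finite
residue field of characteristic `2`), and let `V` be a continuous irreducible two-dimensional
`E`-representation of the absolute Galois group of `ℚ` which is residually unipotent. Suppose that
`2` splits in no quadratic field which is contained in the field cut out by `V`; for example it is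
sufficient that `V` is unramified outside `{2, q, ∞}` for a prime number `q` that is `3` or `5` modulo
`8`.

Theorem: if the restriction of `V` to the decomposition group at `2` is potentially reducible (for
example, potentially ordinary), then `V` is dihedral (induced from a character of the absolute Galois
group of a quadratic field) or its projective image is finite.

If `V` is moreover potentially semi-stable at `2` with distinct Hodge–Tate weights, as in the
Fontaine–Mazur conjecture, then the projective image is not finite, and `V` is induced from an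
algebraic Hecke character of an imaginary quadratic field: it is a twist of the representation of a
cusp form with complex multiplication. So the conjecture is true for these `V`. (This deduction from
classical results is not part of the formal proof.)
-/

set_option autoImplicit false

namespace Pool.Agent.Results.MP_b583a4_nt.PotentiallyReducibleAtTwo

open Matrix IsLocalRing

/-- An algebraic closure of `ℚ`. -/
abbrev QBar : Type := AlgebraicClosure ℚ

/-- The absolute Galois group of `ℚ`, with its Krull topology. -/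
abbrev AbsGal : Type := QBar ≃ₐ[ℚ] QBar

/-- The decomposition group of the prime of `ℚ̄` above `p` given by the embedding `ι` of `ℚ̄`. -/
def Dec {p : ℕ} [Fact p.Prime] (ι : QBar →ₐ[ℚ] PadicAlgCl p) : Set AbsGal :=
  {σ | ∃ τ : PadicAlgCl p ≃ₐ[ℚ_[p]] PadicAlgCl p, ∀ x, τ (ι x) = ι (σ x)}

/-- Its inertia group: the automorphisms which are trivial on the residue field. -/
def Inr {p : ℕ} [Fact p.Prime] (ι : QBar →ₐ[ℚ] PadicAlgCl p) : Set AbsGal :=
  {σ | ∃ τ : PadicAlgCl p ≃ₐ[ℚ_[p]] PadicAlgCl p, (∀ x, τ (ι x) = ι (σ x)) ∧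
    ∀ z : PadicAlgCl p, ‖z‖ ≤ 1 → ‖τ z - z‖ < 1}

/-- The representation `ρ` is continuous and residually unipotent. -/
structure Admissible {A : Type} [CommRing A] [IsLocalRing A] [TopologicalSpace A]
    (ρ : AbsGal →* GL (Fin 2) A) : Prop where
  cont : ∀ i j, Continuous fun σ => (ρ σ : Matrix (Fin 2) (Fin 2) A) i j
  unipotent : ∀ σ, ∃ m : ℕ, ∀ i j,
    (((ρ σ : Matrix (Fin 2) (Fin 2) A) - 1) ^ m) i j ∈ maximalIdeal A

/-- `ρ` is unramified outside `2`, `q` and infinity. -/
def UnramifiedOutside {A : Type} [CommRing A] (q : ℕ) (ρ : AbsGal →* GL (Fin 2) A) : Prop :=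
  ∀ (p : ℕ) [Fact p.Prime] (ι : QBar →ₐ[ℚ] PadicAlgCl p), p ≠ 2 → p ≠ q →
    ∀ σ ∈ (Inr ι : Set AbsGal), ρ σ = 1

/-- `2` splits in no quadratic field contained in the field cut out by `ρ`: if `e ≠ 1` is a squarefree
integer which is `1` modulo `8`, then `√e` is not fixed by the kernel of `ρ`. -/
def NoSplitQuadratic {A : Type} [CommRing A] (ρ : AbsGal →* GL (Fin 2) A) : Prop :=
  ∀ e : ℤ, Squarefree e.natAbs → e % 8 = 1 → e ≠ 1 → ∀ t : QBar, t ^ 2 = e →
    ∃ σ, ρ σ = 1 ∧ σ t ≠ t

/-- The action of `σ` on `V = F ^ 2`. -/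
noncomputable def act {A : Type} [CommRing A] (F : Type) [Field F] [Algebra A F]
    (ρ : AbsGal →* GL (Fin 2) A) (σ : AbsGal) (v : Fin 2 → F) : Fin 2 → F :=
  ((ρ σ : Matrix (Fin 2) (Fin 2) A).map (algebraMap A F)) *ᵥ v

/-- `V` is irreducible. -/
def Irreducible {A : Type} [CommRing A] (F : Type) [Field F] [Algebra A F]
    (ρ : AbsGal →* GL (Fin 2) A) : Prop :=
  ∀ W : Submodule F (Fin 2 → F), (∀ σ, ∀ w ∈ W, act F ρ σ w ∈ W) → W = ⊥ ∨ W = ⊤

/-- `V` is potentially reducible on `D`: a line of `V` is stable under a subgroup `D'`, finitely many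
left cosets of which cover `D`. -/
def PotentiallyReducibleOn {A : Type} [CommRing A] (F : Type) [Field F] [Algebra A F]
    (ρ : AbsGal →* GL (Fin 2) A) (D : Set AbsGal) : Prop :=
  ∃ (D' : Subgroup AbsGal) (R : Set AbsGal) (v : Fin 2 → F), R.Finite ∧
    (∀ δ ∈ D, ∃ r ∈ R, r⁻¹ * δ ∈ D') ∧ v ≠ 0 ∧ ∀ δ ∈ D', ∃ c : F, act F ρ δ v = c • v

/-- The projective image is finite: an open normal subgroup acts by scalars. -/
def ProjectivelyFinite {A : Type} [CommRing A] (F : Type) [Field F] [Algebra A F]
    (ρ : AbsGal →* GL (Fin 2) A) : Prop :=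
  ∃ S : Subgroup AbsGal, S.Normal ∧ S.FiniteIndex ∧ IsOpen (S : Set AbsGal) ∧
    ∀ σ ∈ S, ∃ c : F, ∀ w, act F ρ σ w = c • w

/-- `V` is dihedral: the absolute Galois group of a quadratic field preserves a line. -/
def Dihedral {A : Type} [CommRing A] (F : Type) [Field F] [Algebra A F]
    (ρ : AbsGal →* GL (Fin 2) A) : Prop :=
  ∃ (T : Subgroup AbsGal) (v : Fin 2 → F), T.index = 2 ∧ IsOpen (T : Set AbsGal) ∧ v ≠ 0 ∧
    ∀ σ ∈ T, ∃ c : F, act F ρ σ v = c • v

/-- **Irreducible two-dimensional representations which are potentially reducible at `2`.** -/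
theorem result (A : Type) [CommRing A] [IsLocalRing A] [IsNoetherianRing A] [TopologicalSpace A]
    (hA : IsAdic (maximalIdeal A)) (hfin : Finite (ResidueField A)) (h2 : (2 : A) ∈ maximalIdeal A)
    (F : Type) [Field F] [Algebra A F] [IsFractionRing A F]
    (ρ : AbsGal →* GL (Fin 2) A) (hρ : Admissible ρ)
    (hC : (∃ q : ℕ, q.Prime ∧ (q % 8 = 3 ∨ q % 8 = 5) ∧ UnramifiedOutside q ρ) ∨ NoSplitQuadratic ρ)
    (hirr : Irreducible F ρ) (ι : QBar →ₐ[ℚ] PadicAlgCl 2)
    (hred : PotentiallyReducibleOn F ρ (Dec ι)) :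
    ProjectivelyFinite F ρ ∨ Dihedral F ρ := by
  obtain ⟨D', R, v, hRf, hR, hv, hD'⟩ := hred
  have hC' : NoSplitQuadratic ρ := by
    rcases hC with ⟨q, hq, hq8, hu⟩ | h
    · exact fun e he he8 hne t ht => Pool.Agent.Z384.condQ hq hq8
        (fun p _ ι hp2 hpq σ τ h1 h2 => hu p ι hp2 hpq σ ⟨τ, h1, h2⟩) e he he8 hne t ht
    · exact h
  rcases Pool.Agent.Z384.fmQ2 hA hfin h2 hρ.cont hρ.unipotent hC' ι hRf hR hirr hv hD' with h | h
  · exact Or.inl h
  · obtain ⟨T, h3, h4, h5⟩ := h
    exact Or.inr ⟨T, v, h3, h4, hv, h5⟩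

end Pool.Agent.Results.MP_b583a4_nt.PotentiallyReducibleAtTwo
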