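import Pool.Agent.Results.MP_b583a4_nt.OrdinaryScalar
import Pool.Agent.R338.CU.Wild

/-!
# Ordinary representations with residual image in the scalars and unipotent matrices: random levels

`p = 3`. For two thirds of the pairs of primes `p_0`, `p_1` from arbitrary sets of primes
`≡ 4, 7` modulo `9` (where `3` is not a cube modulo `p_0`) there is no irreducible two-dimensional
representation of `Gal(ℚbar/ℚ)` over any finite extension of `ℚ_3` that is ordinary at `3`,
unramified outside `3`, `p_0`, `p_1` and primes `≡ 2` modulo `3`, semistable at `p_0`, `p_1`, and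
whose reduction has both characters equal.
-/

set_option autoImplicit false

open NumberField Matrix IsLocalRing Finset
open scoped Classical

namespace Pool.Agent.Results.MP_b583a4_nt.RandomOrdinary

open Pool.Agent.Results.MP_b583a4_nt.OrdinaryScalar (UnramifiedOutside ResiduallyScalar
  Decomposition StableLine)

/-- The inertia groups at the primes above the members of `T` act unipotently. -/
def UnipotentInertia {A : Type} [CommRing A] (T : Finset ℕ)
    (ρ : Gal(AlgebraicClosure ℚ/ℚ) →* GL (Fin 2) A) : Prop :=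
  ∀ l ∈ T, ∀ P : Ideal (𝓞 (AlgebraicClosure ℚ)), P.IsMaximal →
    (l : 𝓞 (AlgebraicClosure ℚ)) ∈ P → ∀ τ : Gal(AlgebraicClosure ℚ/ℚ),
      (∀ x : 𝓞 (AlgebraicClosure ℚ), τ • x - x ∈ P) →
        ((ρ τ : Matrix (Fin 2) (Fin 2) A) - 1) ^ 2 = 0

/-- For all finite sets `S'` of primes congruent to `2` modulo `3`, all complete discrete valuation
rings `A` of characteristic `0` with finite residue field of characteristic `3` and all continuous
`ρ : Gal(ℚbar/ℚ) → GL_2(A)`, unramified outside `3`, `T` and `S'`, such that the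
semisimplification of the reduction is the sum of two copies of a character, the inertia groups at
the primes in `T` act unipotently, and the decomposition group at some prime `P` above `3`
preserves a line over the fraction field: `ρ` is reducible over the fraction field. -/
def AlwaysReducible (T : Finset ℕ) : Prop :=
  ∀ S' : Finset ℕ, (∀ l ∈ S', l.Prime ∧ l % 3 = 2) →
  ∀ (A : Type) [CommRing A] [IsDomain A] [IsDiscreteValuationRing A] [CharZero A]
    [IsAdicComplete (maximalIdeal A) A] [TopologicalSpace A], IsAdic (maximalIdeal A) →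
    Finite (ResidueField A) → (3 : A) ∈ maximalIdeal A →
  ∀ ρ : Gal(AlgebraicClosure ℚ/ℚ) →* GL (Fin 2) A, Continuous ρ →
    UnramifiedOutside 3 (T ∪ S') ρ → ResiduallyScalar ρ → UnipotentInertia T ρ →
  ∀ P : Ideal (𝓞 (AlgebraicClosure ℚ)), P.IsMaximal → (3 : 𝓞 (AlgebraicClosure ℚ)) ∈ P →
    StableLine ρ (Decomposition P) → StableLine ρ Set.univ

/-- `P 0`, `P 1` are disjoint sets of primes congruent to `4` or `7` modulo `9`, the members of
`P i` are at most `X i`, `1 ≤ z ≤ X i`, and `3` is not a cube modulo the members of `P 0`. -/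
def Sets (P : Fin 2 → Finset ℕ) (X : Fin 2 → ℕ) (z : ℕ) : Prop :=
  1 ≤ z ∧ (∀ i, z ≤ X i) ∧ (∀ i, ∀ p ∈ P i, p.Prime ∧ (p % 9 = 4 ∨ p % 9 = 7) ∧ p ≤ X i) ∧
    Disjoint (P 0) (P 1) ∧ ∀ p ∈ P 0, ∀ x : ZMod p, x ^ 3 ≠ 3

section crit

open Pool.Agent.R338.CU
open Pool.Agent.Y703.CX (lam)

theorem tame_eq {T S' : Finset ℕ} (hT : ∀ l ∈ T, l.Prime ∧ l % 3 = 1)
    (hS' : ∀ l ∈ S', l.Prime ∧ l % 3 = 2) :
    Pool.Agent.Results.MP_b583a4_nt.OrdinaryScalar.Tame 3 (T ∪ S') = T := by
  ext l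
  simp only [Pool.Agent.Results.MP_b583a4_nt.OrdinaryScalar.Tame, mem_filter, mem_union]
  constructor
  · rintro ⟨h | h, h3⟩
    · exact h
    · have h2 := (hS' l h).2
      have := (hS' l h).1.one_lt
      omega
  · intro h
    have h2 := (hT l h).2
    have := (hT l h).1.one_lt
    exact ⟨Or.inl h, by omega⟩

theorem crit {p : Fin 2 → ℕ} (hp : Tup p) (h9 : ∀ i, p i % 9 = 4 ∨ p i % 9 = 7)
    (h0 : (cl (p 0)).2 ≠ 0)
    (h : (cl (p 0)).2 * lam (p 1) (p 0) * (cl (p 1)).1 ≠
      (cl (p 1)).2 * lam (p 0) (p 1) * (cl (p 0)).1) : AlwaysReducible (univ.image p) := by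
  intro S' hS' A _ _ _ _ _ _ hA hfin h3 ρ hρ hur hres hU P hP h3P hloc
  have hc : CharP (ResidueField A) 3 :=
    TH831.OE.charP_res Nat.prime_three (by exact_mod_cast h3)
  have hT : ∀ l ∈ univ.image p, l.Prime ∧ l % 3 = 1 := by
    intro l hl
    obtain ⟨i, -, rfl⟩ := mem_image.1 hl
    exact ⟨hp.pr i, hp.m3 i⟩
  have hTame := tame_eq hT hS'
  -- the ramification index
  have hp0 : ((3 : ℕ) : A) ≠ 0 := by exact_mod_cast (by decide : (3 : ℕ) ≠ 0)
  obtain ⟨e, c, hc', hqc⟩ := TH831.OE.spl (B := TH831.OE.bas A) ((3 : ℕ) : A) hp0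
  have g0 : ((3 : ℕ) : A) ∈ maximalIdeal A ^ e := (TH831.OE.mem_pow_iff e _).2 ⟨c, hc'⟩
  have g1 : ((3 : ℕ) : A) ∉ maximalIdeal A ^ (e + 1) := by
    intro h
    obtain ⟨d, hd⟩ := (TH831.OE.mem_pow_iff (e + 1) _).1 h
    apply hqc
    rw [((TH831.OE.bas A).ker c).2]
    refine ⟨d, ?_⟩
    have hϖ : (TH831.OE.bas A).π ^ e ≠ 0 := pow_ne_zero _ (TH831.OE.bas A).hπ
    apply mul_left_cancel₀ hϖ
    rw [← hc', hd, pow_succ, mul_assoc]
  have he : 1 ≤ e := by
    rcases Nat.eq_zero_or_pos e with h | h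
    · exfalso
      subst h
      rw [zero_add, pow_one] at g1
      exact g1 (by exact_mod_cast h3)
    · exact h
  have h31 : ∀ i, 3 ≠ p i := by
    intro i h'
    have := hp.m3 i
    rw [← h'] at this
    omega
  -- the linking numbers
  have L1 : ∀ i, Pool.Agent.Results.MP_b583a4_nt.OrdinaryScalar.linking (ResidueField A) (p i) 3
      (chi (p i)) = ZMod.castHom (dvd_refl 3) (ResidueField A) (lam (p i) 3) := fun i =>
    lnk_eq (hp.pr i) (hp.m3 i) Nat.prime_three (h31 i)
  have L2 : ∀ {i j : Fin 2}, i ≠ j →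
      Pool.Agent.Results.MP_b583a4_nt.OrdinaryScalar.linking (ResidueField A) (p i) (p j)
      (chi (p i)) = ZMod.castHom (dvd_refl 3) (ResidueField A) (lam (p i) (p j)) := fun hij =>
    lnk_tup hp hij
  have inj : Function.Injective (ZMod.castHom (dvd_refl 3) (ResidueField A)) := cast_inj
  have m : ∀ i : Fin 2, (((p i - 1) / 3 : ℕ) : ResidueField A) =
      ZMod.castHom (dvd_refl 3) (ResidueField A) ((cl (p i)).1) := fun i =>
    (map_natCast (ZMod.castHom (dvd_refl 3) (ResidueField A)) ((p i - 1) / 3)).symm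
  have h10 : (cl (p 1)).2 ≠ 0 ∨ lam (p 1) (p 0) ≠ 0 := by
    by_contra hcon
    push Not at hcon
    apply h
    rw [hcon.1, hcon.2, mul_zero, zero_mul, zero_mul, zero_mul]
  have hdet : (((p 0 - 1) / 3 : ℕ) : ResidueField A) *
      Pool.Agent.Results.MP_b583a4_nt.OrdinaryScalar.linking (ResidueField A) (p 0) (p 1)
        (chi (p 0)) *
      Pool.Agent.Results.MP_b583a4_nt.OrdinaryScalar.linking (ResidueField A) (p 1) 3
        (chi (p 1)) ≠
      (((p 1 - 1) / 3 : ℕ) : ResidueField A) *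
      Pool.Agent.Results.MP_b583a4_nt.OrdinaryScalar.linking (ResidueField A) (p 1) (p 0)
        (chi (p 1)) *
      Pool.Agent.Results.MP_b583a4_nt.OrdinaryScalar.linking (ResidueField A) (p 0) 3
        (chi (p 0)) := by
    rw [m, m, L1, L1, L2 (by decide), L2 (by decide), ← map_mul, ← map_mul, ← map_mul, ← map_mul]
    intro h'
    have h2 := inj h'
    apply h
    show lam (p 0) 3 * lam (p 1) (p 0) * (cl (p 1)).1 = lam (p 1) 3 * lam (p 0) (p 1) * (cl (p 0)).1
    linear_combination -h2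
  refine Pool.Agent.Results.MP_b583a4_nt.OrdinaryScalar.result 3 (by decide) (univ.image p ∪ S')
    (fun l hl => ?_) A hA hfin e he g0 g1 chi (fun l hl => ?_) (Or.inl ⟨?_, ?_⟩) ρ hρ hur hres
    (Or.inr ?_) P hP (by exact_mod_cast h3P) hloc
  · rcases mem_union.1 hl with hl | hl
    · obtain ⟨i, -, rfl⟩ := mem_image.1 hl
      refine ⟨hp.pr i, (h31 i).symm, ?_⟩
      have h1 := h9 i
      have h2 := (hp.pr i).one_lt
      omega
    · have h1 := hS' l hl
      have h2 := h1.1.one_lt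
      refine ⟨h1.1, ?_, ?_⟩ <;> omega
  · rw [hTame] at hl
    exact chi_ne (hT l hl).1 (hT l hl).2
  · rw [hTame]
    exact card_image_le.trans (by simp)
  · rw [hTame]
    intro k hk l hl hkl
    obtain ⟨i, -, rfl⟩ := mem_image.1 hk
    obtain ⟨j, -, rfl⟩ := mem_image.1 hl
    have hij : i ≠ j := fun h' => hkl (congrArg p h')
    have h01 : (i = 0 ∧ j = 1) ∨ (i = 1 ∧ j = 0) :=
      (by decide : ∀ i j : Fin 2, i ≠ j → (i = 0 ∧ j = 1) ∨ (i = 1 ∧ j = 0)) i j hij
    rcases h01 with ⟨rfl, rfl⟩ | ⟨rfl, rfl⟩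
    · refine ⟨?_, Or.inr hdet⟩
      rw [L1, L2 (by decide), Ne, Ne, map_eq_zero_iff _ inj, map_eq_zero_iff _ inj]
      exact h10
    · refine ⟨Or.inl ?_, Or.inr hdet.symm⟩
      rw [L1, Ne, map_eq_zero_iff _ inj]
      exact h0
  · unfold Pool.Agent.Results.MP_b583a4_nt.OrdinaryScalar.UnipotentInertia
    rw [hTame]
    exact hU

end crit

/-- **Two thirds of the pairs.** There is a constant `C` such that for all sets `P 0`, `P 1` as in
`Sets` at least `(2/3) #P 0 #P 1 - C z ^ (-1/12) X 0 X 1` of the pairs `(p_0, p_1)`, `p_i ∈ P i`,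
satisfy `AlwaysReducible {p_0, p_1}`. -/
theorem result : ∃ C : ℝ, ∀ (P : Fin 2 → Finset ℕ) (X : Fin 2 → ℕ) (z : ℕ), Sets P X z →
    2 / 3 * (((P 0).card : ℝ) * ((P 1).card : ℝ)) -
      C * (z : ℝ) ^ (-(1 / 12 : ℝ)) * ((X 0 : ℝ) * (X 1 : ℝ)) ≤
    ({q : ℕ × ℕ | q.1 ∈ P 0 ∧ q.2 ∈ P 1 ∧ AlwaysReducible {q.1, q.2}}.ncard : ℝ) := by
  obtain ⟨C, hC1, hC⟩ := Pool.Agent.R338.CU.cls_lower
  refine ⟨729 * C, fun P X z hS => ?_⟩
  have hS' : Pool.Agent.R338.CU.Sets P X z := by
    refine ⟨hS.1, hS.2.1, fun i p hp => ?_, fun i l hil => ?_⟩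
    · obtain ⟨h1, h2, h3⟩ := hS.2.2.1 i p hp
      exact ⟨h1, by omega, h3⟩
    · fin_cases i <;> fin_cases l
      · exact absurd rfl hil
      · exact hS.2.2.2.1
      · exact hS.2.2.2.1.symm
      · exact absurd rfl hil
  have h1 := hC 2 P X z hS' (ZMod 3 × ZMod 3) Pool.Agent.R338.CU.cl
    Pool.Agent.R338.CU.QW (2 / 3)
    (fun u hu => Pool.Agent.R338.CU.qW_le (by
      obtain ⟨q, hq, hu⟩ := hu 0
      rw [← hu]
      exact Pool.Agent.R338.CU.cl_snd (hS'.mem 0 q hq).1 (hS'.mem 0 q hq).2.1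
        (hS.2.2.2.2 q hq)) (by
      obtain ⟨q, hq, hu⟩ := hu 1
      rw [← hu]
      exact Pool.Agent.R338.CU.cl_fst (hS.2.2.1 1 q hq).2.1))
    (fun p => AlwaysReducible (univ.image p))
    (fun p hp hQ => by
      have hm := Fintype.mem_piFinset.1 hp
      exact crit (hS'.tup hp) (fun i => (hS.2.2.1 i _ (hm i)).2.1)
        (Pool.Agent.R338.CU.cl_snd (hS'.mem 0 _ (hm 0)).1 (hS'.mem 0 _ (hm 0)).2.1
          (hS.2.2.2.2 _ (hm 0))) hQ)
  have h2 : ({q : ℕ × ℕ | q.1 ∈ P 0 ∧ q.2 ∈ P 1 ∧ AlwaysReducible {q.1, q.2}}.ncard : ℝ) =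
      (((Fintype.piFinset P).filter fun p => AlwaysReducible (univ.image p)).card : ℝ) := by
    congr 1
    rw [← Set.ncard_coe_finset, ← Set.ncard_image_of_injective _
      (f := fun p : Fin 2 → ℕ => (p 0, p 1)) (fun a b h => by
        funext i
        have h3 := Prod.ext_iff.1 h
        fin_cases i
        · exact h3.1
        · exact h3.2)]
    congr 1
    ext ⟨a, b⟩
    simp only [Set.mem_ofPred_eq, Set.mem_image, coe_filter, Fintype.mem_piFinset]
    constructor
    · rintro ⟨ha, hb, h⟩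
      refine ⟨![a, b], ⟨fun i => ?_, ?_⟩, rfl⟩
      · fin_cases i
        · exact ha
        · exact hb
      · have : univ.image ![a, b] = {a, b} := by
          ext x
          simp [Fin.exists_fin_two, eq_comm]
        rw [this]
        exact h
    · rintro ⟨p, ⟨h3, h4⟩, h5⟩
      obtain ⟨rfl, rfl⟩ := Prod.ext_iff.1 h5
      refine ⟨h3 0, h3 1, ?_⟩
      have : univ.image p = {p 0, p 1} := by
        ext x
        simp [Fin.exists_fin_two, eq_comm]
      rw [← this]
      exact h4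
  rw [h2]
  refine le_trans (le_of_eq ?_) h1
  rw [Fintype.card_prod, ZMod.card, Fin.prod_univ_two, Fin.prod_univ_two]
  norm_num
  ring

end Pool.Agent.Results.MP_b583a4_nt.RandomOrdinary
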